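import Pool.Agent.Lib.MP_6f5d92_co.BipW

namespace Pool.Agent.Results.MP_6f5d92_co.Bipartite

open Pool.Agent.Lib.MP_6f5d92_co

/-- Let `P i` be planar convex sets in three-space, `S i` the set of sides of `P i`; no side
belongs to three of the sets.  If each of `s` sets shares a side with each of `t` other sets,
`3 ≤ s ≤ t`, and these `s + t` sets do not all lie in one plane, then `2 s + t ≤ 14`. -/
theorem result (ι : Type) (P : ι → Set (Fin 3 → ℝ)) (S : ι → Set (Set (Fin 3 → ℝ)))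
    (hc : ∀ i, Convex ℝ (P i)) (hpl : ∀ i, Coplanar ℝ (P i))
    (hS : ∀ i e, e ∈ S i ↔ IsExtreme ℝ (P i) e ∧ ∃ a b, a ≠ b ∧ e = segment ℝ a b)
    (h2 : ∀ i j k e, e ∈ S i → e ∈ S j → e ∈ S k → i = j ∨ i = k ∨ j = k)
    (R T : Finset ι) (hd : Disjoint R T) (h : ∀ r ∈ R, ∀ j ∈ T, ∃ e ∈ S r, e ∈ S j)
    (hnc : ¬ Coplanar ℝ ((⋃ r ∈ R, P r) ∪ ⋃ j ∈ T, P j))
    (h3 : 3 ≤ R.card) (hle : R.card ≤ T.card) : 2 * R.card + T.card ≤ 14 := by
  by_contra hn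
  have ne : ∀ (r : R) (j : T), (r : ι) ≠ j := fun r j e =>
    Finset.disjoint_left.1 hd r.2 (e ▸ j.2)
  have k : ∀ (r : R) (j : T), ∃ a b, a ≠ b ∧ segment ℝ a b ∈ S r ∧ segment ℝ a b ∈ S j :=
    fun r j => by
      obtain ⟨e, h1, h4⟩ := h _ r.2 _ j.2
      obtain ⟨-, a, b, ab, rfl⟩ := (hS _ _).1 h1
      exact ⟨a, b, ab, h1, h4⟩
  choose a b ab h1 h4 using k
  have eA := fun r j => ((hS _ _).1 (h1 r j)).1
  have eX := fun r j => ((hS _ _).1 (h4 r j)).1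
  have d1 : ∀ r q j, q ≠ r → segment ℝ (a r j) (b r j) ≠ segment ℝ (a q j) (b q j) :=
    fun r q j h e => by
      rcases h2 _ _ _ _ (h1 r j) (e ▸ h1 q j) (h4 r j) with e' | e' | e'
      exacts [h (Subtype.ext e').symm, ne r j e', ne q j e']
  have d2 : ∀ r j l, l ≠ j → segment ℝ (a r j) (b r j) ≠ segment ℝ (a r l) (b r l) :=
    fun r j l h e => by
      rcases h2 _ _ _ _ (h1 r j) (h4 r j) (e ▸ h4 r l) with e' | e' | e'
      exacts [ne r j e', ne r l e', h (Subtype.ext e').symm]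
  have nc : ∀ r q : R, r ≠ q → ¬ Coplanar ℝ (P r ∪ P q) := fun r q rq hp => by
    obtain ⟨n, c, h0, hp⟩ := exists_plane hp
    have hX : ∀ j : T, ∀ y ∈ P j, n ⬝ᵥ y = c := fun j =>
      Bip.two_sides (hpl j) h0 (ab r j) (eX r j) (ab q j) (eX q j) (d1 r q j rq.symm)
        (fun y hy => hp y (Or.inl ((eA r j).subset hy)))
        fun y hy => hp y (Or.inr ((eA q j).subset hy))
    obtain ⟨j, hj, l, hl, jl⟩ := Finset.one_lt_card.1 (show 1 < T.card by omega)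
    have hA : ∀ u : R, ∀ y ∈ P u, n ⬝ᵥ y = c := fun u =>
      Bip.two_sides (hpl u) h0 (ab u ⟨j, hj⟩) (eA u _) (ab u ⟨l, hl⟩) (eA u _)
        (d2 u _ _ fun e => jl (congrArg Subtype.val e).symm)
        (fun y hy => hX _ y ((eX u _).subset hy)) fun y hy => hX _ y ((eX u _).subset hy)
    refine hnc (coplanar_of_plane (c := c) h0 fun y hy => ?_)
    rcases hy with hy | hy <;> obtain ⟨i, hi, hy⟩ := Set.mem_iUnion₂.1 hy
    exacts [hA ⟨i, hi⟩ y hy, hX ⟨i, hi⟩ y hy]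
  obtain ⟨s, t, hst, hs, ht⟩ : ∃ s t, (s = 3 ∧ t = 9 ∨ s = 4 ∧ t = 7 ∨ s = 5 ∧ t = 5) ∧
      s ≤ R.card ∧ t ≤ T.card := by
    by_cases q : R.card = 3
    · exact ⟨3, 9, by omega⟩
    by_cases q' : R.card = 4
    · exact ⟨4, 7, by omega⟩
    · exact ⟨5, 5, by omega⟩
  obtain ⟨ρ⟩ : Nonempty (Fin s ↪ R) := Function.Embedding.nonempty_of_card_le (by simpa using hs)
  obtain ⟨θ⟩ : Nonempty (Fin t ↪ T) := Function.Embedding.nonempty_of_card_le (by simpa using ht)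
  exact Bip.small' hst (fun r => P (ρ r)) (fun j => P (θ j)) (fun r j => a (ρ r) (θ j))
    (fun r j => b (ρ r) (θ j)) (fun _ => hc _) (fun _ => hpl _) (fun _ => hc _) (fun _ => hpl _)
    (fun _ _ => ab _ _) (fun _ _ => eA _ _) (fun _ _ => eX _ _)
    (fun _ _ _ h => d1 _ _ _ (ρ.injective.ne h)) (fun _ _ _ h => d2 _ _ _ (θ.injective.ne h))
    fun _ _ h => nc _ _ (ρ.injective.ne h)

end Pool.Agent.Results.MP_6f5d92_co.Bipartite
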