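import Pool.Agent.Lib.MP_6f5d92_co.Genus

namespace Pool.Agent.Results.MP_6f5d92_co.FaceSizes

open Pool.Agent.Lib.MP_6f5d92_co

/-- Let finitely many planar convex polygons `P i` in three-space be given, `S i` the set of sides
of `P i`.  If every side is a side of exactly one other polygon and the two are not coplanar, the
squares of the numbers of sides add up to at most `450` times the square of the number `F` of
faces; some face has at most `√(450 F)` sides, and at most `6 + ∛(5400 g)` sides if the numbers of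
vertices, edges and faces satisfy `V - E + F = 2 - 2 g`. -/
theorem result (ι : Type) [Fintype ι] [Nonempty ι] (V : ι → Finset (Fin 3 → ℝ))
    (P : ι → Set (Fin 3 → ℝ)) (S : ι → Set (Set (Fin 3 → ℝ)))
    (hP : ∀ i, P i = convexHull ℝ (V i : Set (Fin 3 → ℝ))) (hpl : ∀ i, Coplanar ℝ (P i))
    (hS : ∀ i e, e ∈ S i ↔ IsExtreme ℝ (P i) e ∧ ∃ a b, a ≠ b ∧ e = segment ℝ a b)
    (h2 : ∀ i, ∀ e ∈ S i, ∃! j, j ≠ i ∧ e ∈ S j)
    (hnc : ∀ i j, i ≠ j → ∀ e ∈ S i, e ∈ S j → ¬ Coplanar ℝ (P i ∪ P j)) :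
    ∑ i, (S i).ncard ^ 2 ≤ 450 * Fintype.card ι ^ 2 ∧
    ∃ i, (S i).ncard ^ 2 ≤ 450 * Fintype.card ι ∧ ∀ g : ℕ,
      ({v | ∃ j w, v ≠ w ∧ segment ℝ v w ∈ S j}.ncard : ℤ) - (⋃ j, S j).ncard + Fintype.card ι =
        2 - 2 * g → (((S i).ncard : ℤ) - 6) ^ 3 ≤ 5400 * g := by
  obtain ⟨n, c, h⟩ := exists_surf (fun i => hP i ▸ convex_convexHull ℝ _) hpl hS h2 hnc
  have hb : ∑ i, (S i).ncard ^ 2 ≤ 450 * Fintype.card ι ^ 2 :=
    h.bound.trans (Nat.mul_le_mul_right _ (by norm_num))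
  have hf := fun i => (h.card_le i).1
  obtain ⟨i, a1, a2⟩ := exists_small _ hb
  rw [sum_sides S hf h2] at a2
  have a3 := three_vertices V P S hP hpl hS (fun i e he => (h2 i e he).exists) hnc hf
  exact ⟨hb, i, a1, fun g hg => genus_arith (Int.natCast_nonneg g)
    (by exact_mod_cast a1) (by exact_mod_cast a2) (by exact_mod_cast a3) hg⟩

end Pool.Agent.Results.MP_6f5d92_co.FaceSizes
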