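import Pool.Agent.Lib.MP_6f5d92_co.Tri

namespace Pool.Agent.Results.MP_6f5d92_co.Tripartite

open Pool.Agent.Lib.MP_6f5d92_co Three Matrix

/-- Let `P i` be planar convex sets in three-space, `S i` the set of sides of `P i`; no side
belongs to three of the sets.  If `P a` shares a side with `P b` and with `P c`, each further set
`P j`, `j ∈ T`, shares a side with each of the three, and all these sets do not lie in one plane,
then `T` has at most two elements. -/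
theorem result (ι : Type) (P : ι → Set (Fin 3 → ℝ)) (S : ι → Set (Set (Fin 3 → ℝ)))
    (hc : ∀ i, Convex ℝ (P i)) (hpl : ∀ i, Coplanar ℝ (P i))
    (hS : ∀ i e, e ∈ S i ↔ IsExtreme ℝ (P i) e ∧ ∃ a b, a ≠ b ∧ e = segment ℝ a b)
    (h2 : ∀ i j k e, e ∈ S i → e ∈ S j → e ∈ S k → i = j ∨ i = k ∨ j = k)
    (a b c : ι) (ab : a ≠ b) (ac : a ≠ c) (bc : b ≠ c)
    (hb : ∃ e ∈ S a, e ∈ S b) (hc' : ∃ e ∈ S a, e ∈ S c)
    (T : Finset ι) (ha : a ∉ T) (hbT : b ∉ T) (hcT : c ∉ T)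
    (h : ∀ j ∈ T, (∃ e ∈ S a, e ∈ S j) ∧ (∃ e ∈ S b, e ∈ S j) ∧ ∃ e ∈ S c, e ∈ S j)
    (hnc : ¬ Coplanar ℝ (P a ∪ P b ∪ P c ∪ ⋃ j ∈ T, P j)) : T.card ≤ 2 := by
  by_contra hn
  obtain ⟨θ⟩ : Nonempty (Fin 3 ↪ T) :=
    Function.Embedding.nonempty_of_card_le (by simp; omega)
  choose n d hn0 hd using fun i => exists_plane (hpl i)
  have mid : ∀ i j, (∃ e ∈ S i, e ∈ S j) → ∃ x, ∃ u v, u ≠ v ∧ segment ℝ u v ∈ S i ∧
      segment ℝ u v ∈ S j ∧ x = midpoint ℝ u v := by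
    rintro i j ⟨e, h1, h3⟩
    obtain ⟨-, u, v, uv, rfl⟩ := (hS _ _).1 h1
    exact ⟨_, u, v, uv, h1, h3, rfl⟩
  let M : ι → ι → (Fin 3 → ℝ) → Prop := fun i j x => ∃ u v, u ≠ v ∧ segment ℝ u v ∈ S i ∧
    segment ℝ u v ∈ S j ∧ x = midpoint ℝ u v
  have Ms : ∀ {i j x}, M i j x → M j i x := fun ⟨u, v, uv, h1, h3, e⟩ => ⟨u, v, uv, h3, h1, e⟩
  have Mz : ∀ {i j x}, M i j x → ev (n i, d i) x = 0 := by
    rintro i j x ⟨u, v, -, h1, -, rfl⟩
    exact sub_eq_zero.2 (hd i _ (((hS _ _).1 h1).1.subset (midpoint_mem_segment _ _)))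
  let Ad : ι → ι → Prop := fun i j => (∃ e ∈ S i, e ∈ S j) ∧ ¬ Coplanar ℝ (P i ∪ P j)
  have sg : ∀ i j, ∃ s : Bool, i ≠ j → Ad i j → ∀ k x, k ≠ i → k ≠ j → M i k x →
      0 < sn s * ev (n j, d j) x := by
    intro i j
    by_cases q : i ≠ j ∧ Ad i j
    · obtain ⟨ij, ⟨e, h1, h3⟩, nc⟩ := q
      obtain ⟨e1, u, v, uv, rfl⟩ := (hS _ _).1 h1
      have e3 := ((hS _ _).1 h3).1
      obtain ⟨s, hs⟩ := exists_sn (hc i) (cross_of_not_coplanar (hn0 i) (hn0 j) (hd i) (hd j)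
        (e1.subset (left_mem_segment ℝ _ _)) (e3.subset (left_mem_segment ℝ _ _))
        nc).1 (hd i) uv e1 fun y hy => hd j y (e3.subset hy)
      refine ⟨s, fun _ _ k x ki kj => ?_⟩
      rintro ⟨p, q, pq, k1, k2, rfl⟩
      refine hs p q pq ((hS _ _).1 k1).1 fun e => ?_
      rcases h2 i j k _ h1 h3 (e ▸ k2) with e' | e' | e'
      exacts [ij e', ki e'.symm, kj e'.symm]
    · exact ⟨true, fun h1 h3 => absurd ⟨h1, h3⟩ q⟩
  choose s hs using sg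
  have sy' : ∀ {i j}, (∃ e ∈ S i, e ∈ S j) → ∃ e ∈ S j, e ∈ S i := fun ⟨e, h1, h3⟩ => ⟨e, h3, h1⟩
  have sy : ∀ {i j}, Ad i j → Ad j i := fun q => ⟨sy' q.1, by rw [Set.union_comm]; exact q.2⟩
  have fl : ∀ {m : Fin 3 → ℝ} {r : ℝ}, m ≠ 0 → ∀ {i j k}, i ≠ j → k ≠ i → k ≠ j →
      (∃ e ∈ S k, e ∈ S i) → (∃ e ∈ S k, e ∈ S j) → (∀ y ∈ P i, m ⬝ᵥ y = r) →
      (∀ y ∈ P j, m ⬝ᵥ y = r) → ∀ y ∈ P k, m ⬝ᵥ y = r := by
    rintro m r hm i j k ij ki kj ⟨e, h1, h3⟩ ⟨f, h4, h5⟩ hi hj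
    obtain ⟨e1, u, v, uv, rfl⟩ := (hS _ _).1 h1
    obtain ⟨e2, p, q, pq, rfl⟩ := (hS _ _).1 h4
    refine Tri.two_sides (hpl k) hm uv e1 pq e2 (fun e => ?_)
      (fun y hy => hi y (((hS _ _).1 h3).1.subset hy))
      fun y hy => hj y (((hS _ _).1 h5).1.subset hy)
    rcases h2 k i j _ h1 h3 (e ▸ h5) with e' | e' | e'
    exacts [ki e', kj e', ij e']
  let t : Fin 3 → ι := fun j => θ j
  have tT : ∀ j, t j ∈ T := fun j => (θ j).2
  have ti : ∀ {j l}, l ≠ j → t l ≠ t j := fun h e => h (θ.injective (Subtype.ext e))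
  have ta : ∀ j, t j ≠ a := fun j e => ha (e ▸ tT j)
  have tb : ∀ j, t j ≠ b := fun j e => hbT (e ▸ tT j)
  have tc : ∀ j, t j ≠ c := fun j e => hcT (e ▸ tT j)
  choose xa hxa using fun j => mid _ _ (h _ (tT j)).1
  choose xb hxb using fun j => mid _ _ (h _ (tT j)).2.1
  choose xc hxc using fun j => mid _ _ (h _ (tT j)).2.2
  obtain ⟨yb, hyb⟩ := mid _ _ hb
  obtain ⟨yc, hyc⟩ := mid _ _ hc'
  have Ka := fun j => (h _ (tT j)).1
  have Kb := fun j => (h _ (tT j)).2.1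
  have Kc := fun j => (h _ (tT j)).2.2
  have all : ∀ {m : Fin 3 → ℝ} {r : ℝ}, m ≠ 0 → ∀ j, (∀ y ∈ P a, m ⬝ᵥ y = r) →
      (∀ y ∈ P (t j), m ⬝ᵥ y = r) → False := by
    intro m r hm j pa pj
    have pb := fl hm (ta j).symm ab.symm (tb j).symm (sy' hb) (Kb j) pa pj
    have pc := fl hm (ta j).symm ac.symm (tc j).symm (sy' hc') (Kc j) pa pj
    refine hnc (coplanar_of_plane (c := r) hm ?_)
    rintro y (((hy | hy) | hy) | hy)
    exacts [pa y hy, pb y hy, pc y hy, by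
      obtain ⟨i, hi, hy⟩ := Set.mem_iUnion₂.1 hy
      exact fl hm ab (fun e => ha (e ▸ hi)) (fun e => hbT (e ▸ hi)) (sy' (h i hi).1)
        (sy' (h i hi).2.1) pa pb y hy]
  have ad : ∀ {i j}, (∃ e ∈ S i, e ∈ S j) → (∀ (m : Fin 3 → ℝ) (r : ℝ), m ≠ 0 →
      (∀ y ∈ P i, m ⬝ᵥ y = r) → (∀ y ∈ P j, m ⬝ᵥ y = r) → False) → Ad i j := fun q k =>
    ⟨q, fun hp => by
      obtain ⟨m, r, hm, hp⟩ := exists_plane hp
      exact k m r hm (fun y hy => hp y (Or.inl hy)) fun y hy => hp y (Or.inr hy)⟩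
  have Ha := fun j => ad (Ka j) fun m r hm p q => all hm j p q
  have Hb := fun j => ad (Kb j) fun m r hm p q =>
    all hm j (fl hm (tb j).symm ab (ta j).symm hb (Ka j) p q) q
  have Hc := fun j => ad (Kc j) fun m r hm p q =>
    all hm j (fl hm (tc j).symm ac (ta j).symm hc' (Ka j) p q) q
  replace hb := ad hb fun m r hm p q =>
    all hm 0 p (fl hm ab (ta 0) (tb 0) (sy' (Ka 0)) (sy' (Kb 0)) p q)
  replace hc' := ad hc' fun m r hm p q =>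
    all hm 0 p (fl hm ac (ta 0) (tc 0) (sy' (Ka 0)) (sy' (Kc 0)) p q)
  have g1 : ∀ l, s b (t l) = s a (t l) := fun l =>
    Tri.sn_eq (hs b _ (tb l).symm (Hb l) a yb ab (ta l).symm (Ms hyb))
      (hs a _ (ta l).symm (Ha l) b yb ab.symm (tb l).symm hyb)
  have g2 : ∀ l, s c (t l) = s a (t l) := fun l =>
    Tri.sn_eq (hs c _ (tc l).symm (Hc l) a yc ac (ta l).symm (Ms hyc))
      (hs a _ (ta l).symm (Ha l) c yc ac.symm (tc l).symm hyc)
  have f1 : ∀ j, s (t j) b = s a b := fun j =>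
    Tri.sn_eq (hs _ b (tb j) (sy (Hb j)) a (xa j) (ta j).symm ab (Ms (hxa j)))
      (hs a b ab hb _ (xa j) (ta j) (tb j) (hxa j))
  have f2 : ∀ j, s (t j) c = s a c := fun j =>
    Tri.sn_eq (hs _ c (tc j) (sy (Hc j)) a (xa j) (ta j).symm ac (Ms (hxa j)))
      (hs a c ac hc' _ (xa j) (ta j) (tc j) (hxa j))
  have f0 : ∀ j, s (t j) a = s b a := fun j =>
    Tri.sn_eq (hs _ a (ta j) (sy (Ha j)) b (xb j) (tb j).symm ab.symm (Ms (hxb j)))
      (hs b a ab.symm (sy hb) _ (xb j) (tb j) (ta j) (hxb j))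
  refine Tri.core ![sn (s b a) • (n a, d a), sn (s a b) • (n b, d b), sn (s a c) • (n c, d c)]
    (fun l => sn (s a (t l)) • (n (t l), d (t l))) ![xa, xb, xc] (fun r j => ?_) (fun r j => ?_)
    (fun r q j qr => ?_) fun r j l lj => ?_
  · fin_cases r
    · exact (ev_smul _ _ _).trans (mul_eq_zero_of_right _ (Mz (hxa j)))
    · exact (ev_smul _ _ _).trans (mul_eq_zero_of_right _ (Mz (hxb j)))
    · exact (ev_smul _ _ _).trans (mul_eq_zero_of_right _ (Mz (hxc j)))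
  · fin_cases r
    · exact (ev_smul _ _ _).trans (mul_eq_zero_of_right _ (Mz (Ms (hxa j))))
    · exact (ev_smul _ _ _).trans (mul_eq_zero_of_right _ (Mz (Ms (hxb j))))
    · exact (ev_smul _ _ _).trans (mul_eq_zero_of_right _ (Mz (Ms (hxc j))))
  · fin_cases r <;> fin_cases q
    · exact absurd rfl qr
    · exact (f1 j ▸ hs _ b (tb j) (sy (Hb j)) a (xa j) (ta j).symm ab (Ms (hxa j))).trans_eq
        (ev_smul _ _ _).symm
    · exact (f2 j ▸ hs _ c (tc j) (sy (Hc j)) a (xa j) (ta j).symm ac (Ms (hxa j))).trans_eq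
        (ev_smul _ _ _).symm
    · exact (f0 j ▸ hs _ a (ta j) (sy (Ha j)) b (xb j) (tb j).symm ab.symm (Ms (hxb j))).trans_eq
        (ev_smul _ _ _).symm
    · exact absurd rfl qr
    · exact (f2 j ▸ hs _ c (tc j) (sy (Hc j)) b (xb j) (tb j).symm bc (Ms (hxb j))).trans_eq
        (ev_smul _ _ _).symm
    · exact (f0 j ▸ hs _ a (ta j) (sy (Ha j)) c (xc j) (tc j).symm ac.symm (Ms (hxc j))).trans_eq
        (ev_smul _ _ _).symm
    · exact (f1 j ▸ hs _ b (tb j) (sy (Hb j)) c (xc j) (tc j).symm bc.symm (Ms (hxc j))).trans_eq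
        (ev_smul _ _ _).symm
    · exact absurd rfl qr
  · fin_cases r
    · exact (hs a _ (ta l).symm (Ha l) _ (xa j) (ta j) (ti lj).symm (hxa j)).trans_eq
        (ev_smul _ _ _).symm
    · exact (g1 l ▸ hs b _ (tb l).symm (Hb l) _ (xb j) (tb j) (ti lj).symm (hxb j)).trans_eq
        (ev_smul _ _ _).symm
    · exact (g2 l ▸ hs c _ (tc l).symm (Hc l) _ (xc j) (tc j) (ti lj).symm (hxc j)).trans_eq
        (ev_smul _ _ _).symm

end Pool.Agent.Results.MP_6f5d92_co.Tripartite
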